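import Pool.Agent.H99.CyclesDefs

/-!
# The board: a hexagon with a centre joined to every second corner

The vertex `0` is the centre; `1, …, 6` are the corners of the hexagon, `0` is joined to the
corners `1, 3, 5`.
-/

set_option autoImplicit false

namespace Pool.Agent.H99.Cycles.Hexagon

open Set

/-- the coordinates of the vertices -/
def pos : Fin 7 → ℝ × ℝ
  | 0 => (0, 0)
  | 1 => (1, 0)
  | 2 => (1, 1)
  | 3 => (0, 1)
  | 4 => (-1, 0)
  | 5 => (-1, -1)
  | 6 => (0, -1)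

/-- the tail of the reference arrow of each of the nine edges -/
def eu : Fin 9 → Fin 7
  | 0 => 0
  | 1 => 1
  | 2 => 2
  | 3 => 3
  | 4 => 3
  | 5 => 4
  | 6 => 5
  | 7 => 5
  | 8 => 6

/-- the head of the reference arrow of each of the nine edges -/
def ev : Fin 9 → Fin 7
  | 0 => 1
  | 1 => 2
  | 2 => 3
  | 3 => 0
  | 4 => 4
  | 5 => 5
  | 6 => 0
  | 7 => 6
  | 8 => 1

/-- the graph -/
def G : SimpleGraph (Fin 7) where
  Adj u v := ∃ i, (u = eu i ∧ v = ev i) ∨ (u = ev i ∧ v = eu i)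
  symm := ⟨by
    rintro u v ⟨i, h | h⟩
    · exact ⟨i, Or.inr ⟨h.2, h.1⟩⟩
    · exact ⟨i, Or.inl ⟨h.2, h.1⟩⟩⟩
  loopless := ⟨by
    rintro u ⟨i, ⟨h1, h2⟩ | ⟨h1, h2⟩⟩ <;> revert h1 h2 <;> revert i u <;> decide⟩

instance : DecidableRel G.Adj := fun u v =>
  inferInstanceAs (Decidable (∃ i, (u = eu i ∧ v = ev i) ∨ (u = ev i ∧ v = eu i)))

/-- the edges as subsets of the plane -/
def S : Fin 9 → ℝ × ℝ → Prop
  | 0, p => 0 ≤ p.1 ∧ p.1 ≤ 1 ∧ p.2 = 0
  | 1, p => 0 ≤ p.2 ∧ p.2 ≤ 1 ∧ p.1 = 1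
  | 2, p => 0 ≤ p.1 ∧ p.1 ≤ 1 ∧ p.2 = 1
  | 3, p => 0 ≤ p.2 ∧ p.2 ≤ 1 ∧ p.1 = 0
  | 4, p => -1 ≤ p.1 ∧ p.1 ≤ 0 ∧ p.2 = p.1 + 1
  | 5, p => -1 ≤ p.2 ∧ p.2 ≤ 0 ∧ p.1 = -1
  | 6, p => -1 ≤ p.1 ∧ p.1 ≤ 0 ∧ p.2 = p.1
  | 7, p => -1 ≤ p.1 ∧ p.1 ≤ 0 ∧ p.2 = -1
  | 8, p => 0 ≤ p.1 ∧ p.1 ≤ 1 ∧ p.2 = p.1 - 1

theorem mem_seg (p q x : ℝ × ℝ) : x ∈ segment ℝ p q ↔
    ∃ t : ℝ, 0 ≤ t ∧ t ≤ 1 ∧ x.1 = p.1 + t * (q.1 - p.1) ∧ x.2 = p.2 + t * (q.2 - p.2) := by
  rw [segment_eq_image']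
  constructor
  · rintro ⟨t, ⟨h0, h1⟩, rfl⟩
    exact ⟨t, h0, h1, by simp, by simp⟩
  · rintro ⟨t, h0, h1, h2, h3⟩
    exact ⟨t, ⟨h0, h1⟩, by ext <;> simp [h2, h3]⟩

theorem seg_iff (i : Fin 9) (p : ℝ × ℝ) : p ∈ segment ℝ (pos (eu i)) (pos (ev i)) ↔ S i p := by
  rw [mem_seg]
  obtain ⟨x, y⟩ := p
  fin_cases i
  · simp only [eu, ev, pos, S]
    constructor
    · rintro ⟨t, h0, h1, h2, h3⟩
      exact ⟨by linarith, by linarith, by linarith⟩
    · rintro ⟨h0, h1, h2⟩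
      exact ⟨x, h0, h1, by ring, by rw [h2]; ring⟩
  · simp only [eu, ev, pos, S]
    constructor
    · rintro ⟨t, h0, h1, h2, h3⟩
      exact ⟨by linarith, by linarith, by linarith⟩
    · rintro ⟨h0, h1, h2⟩
      exact ⟨y, h0, h1, by rw [h2]; ring, by ring⟩
  · simp only [eu, ev, pos, S]
    constructor
    · rintro ⟨t, h0, h1, h2, h3⟩
      exact ⟨by linarith, by linarith, by linarith⟩
    · rintro ⟨h0, h1, h2⟩
      exact ⟨1 - x, by linarith, by linarith, by ring, by rw [h2]; ring⟩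
  · simp only [eu, ev, pos, S]
    constructor
    · rintro ⟨t, h0, h1, h2, h3⟩
      exact ⟨by linarith, by linarith, by linarith⟩
    · rintro ⟨h0, h1, h2⟩
      exact ⟨1 - y, by linarith, by linarith, by rw [h2]; ring, by ring⟩
  · simp only [eu, ev, pos, S]
    constructor
    · rintro ⟨t, h0, h1, h2, h3⟩
      exact ⟨by linarith, by linarith, by linarith⟩
    · rintro ⟨h0, h1, h2⟩
      exact ⟨-x, by linarith, by linarith, by ring, by rw [h2]; ring⟩
  · simp only [eu, ev, pos, S]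
    constructor
    · rintro ⟨t, h0, h1, h2, h3⟩
      exact ⟨by linarith, by linarith, by linarith⟩
    · rintro ⟨h0, h1, h2⟩
      exact ⟨-y, by linarith, by linarith, by rw [h2]; ring, by ring⟩
  · simp only [eu, ev, pos, S]
    constructor
    · rintro ⟨t, h0, h1, h2, h3⟩
      exact ⟨by linarith, by linarith, by linarith⟩
    · rintro ⟨h0, h1, h2⟩
      exact ⟨1 + x, by linarith, by linarith, by ring, by rw [h2]; ring⟩
  · simp only [eu, ev, pos, S]
    constructor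
    · rintro ⟨t, h0, h1, h2, h3⟩
      exact ⟨by linarith, by linarith, by linarith⟩
    · rintro ⟨h0, h1, h2⟩
      exact ⟨1 + x, by linarith, by linarith, by ring, by rw [h2]; ring⟩
  · simp only [eu, ev, pos, S]
    constructor
    · rintro ⟨t, h0, h1, h2, h3⟩
      exact ⟨by linarith, by linarith, by linarith⟩
    · rintro ⟨h0, h1, h2⟩
      exact ⟨x, by linarith, by linarith, by ring, by rw [h2]; ring⟩

theorem seg_of_adj {u v : Fin 7} (h : G.Adj u v) :
    ∃ i, (s(u, v) = s(eu i, ev i)) ∧ ∀ p, p ∈ segment ℝ (pos u) (pos v) ↔ S i p := by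
  obtain ⟨i, ⟨rfl, rfl⟩ | ⟨rfl, rfl⟩⟩ := h
  · exact ⟨i, rfl, seg_iff i⟩
  · refine ⟨i, Sym2.eq_swap, fun p => ?_⟩
    rw [segment_symm]
    exact seg_iff i p

theorem pos_injective : Function.Injective pos := by
  intro u v h
  fin_cases u <;> fin_cases v <;> first | rfl | (exfalso; norm_num [pos] at h)

theorem vertex_off (i : Fin 9) (w : Fin 7) (h : S i (pos w)) : w = eu i ∨ w = ev i := by
  fin_cases i <;> fin_cases w <;> first | (left; rfl) | (right; rfl) |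
    (exfalso; norm_num [pos, S] at h)

theorem edges_disjoint (i j : Fin 9) (hij : i ≠ j) (p : ℝ × ℝ) (hi : S i p) (hj : S j p) :
    ∃ w, (w = eu i ∨ w = ev i) ∧ (w = eu j ∨ w = ev j) ∧ p = pos w := by
  obtain ⟨x, y⟩ := p
  fin_cases i <;> fin_cases j <;> simp only [S] at hi hj <;>
    obtain ⟨h1, h2, h3⟩ := hi <;> obtain ⟨h4, h5, h6⟩ := hj <;>
    first
    | exact absurd rfl hij
    | (exfalso; linarith)
    | exact ⟨0, by decide, by decide, Prod.ext (by simp only [pos]; linarith) (by simp only [pos]; linarith)⟩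
    | exact ⟨1, by decide, by decide, Prod.ext (by simp only [pos]; linarith) (by simp only [pos]; linarith)⟩
    | exact ⟨2, by decide, by decide, Prod.ext (by simp only [pos]; linarith) (by simp only [pos]; linarith)⟩
    | exact ⟨3, by decide, by decide, Prod.ext (by simp only [pos]; linarith) (by simp only [pos]; linarith)⟩
    | exact ⟨4, by decide, by decide, Prod.ext (by simp only [pos]; linarith) (by simp only [pos]; linarith)⟩
    | exact ⟨5, by decide, by decide, Prod.ext (by simp only [pos]; linarith) (by simp only [pos]; linarith)⟩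
    | exact ⟨6, by decide, by decide, Prod.ext (by simp only [pos]; linarith) (by simp only [pos]; linarith)⟩

/-- the board -/
def board : Board where
  V := Fin 7
  finite := inferInstance
  G := G
  pos := pos
  pos_injective := pos_injective
  vertex_off_edge := by
    intro u v w h hw
    obtain ⟨i, hi, hS⟩ := seg_of_adj h
    have := vertex_off i w ((hS _).1 hw)
    rw [Sym2.eq_iff] at hi
    rcases hi with ⟨rfl, rfl⟩ | ⟨rfl, rfl⟩
    · exact this
    · exact this.symm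
  edges_disjoint := by
    intro u v x y h1 h2 hne p hp
    obtain ⟨i, hi, hS⟩ := seg_of_adj h1
    obtain ⟨j, hj, hS'⟩ := seg_of_adj h2
    have hij : i ≠ j := by
      rintro rfl
      exact hne (hi.trans hj.symm)
    obtain ⟨w, hw1, hw2, hw3⟩ := edges_disjoint i j hij p ((hS _).1 hp.1) ((hS' _).1 hp.2)
    refine ⟨w, ?_, ?_, hw3⟩
    · rw [Sym2.eq_iff] at hi
      rcases hi with ⟨rfl, rfl⟩ | ⟨rfl, rfl⟩
      · exact hw1
      · exact hw1.symm
    · rw [Sym2.eq_iff] at hj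
      rcases hj with ⟨rfl, rfl⟩ | ⟨rfl, rfl⟩
      · exact hw2
      · exact hw2.symm

end Pool.Agent.H99.Cycles.Hexagon
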