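import Pool.Agent.H99.CyclesBoard

/-!
# The cells of the hexagon board
-/

set_option autoImplicit false

namespace Pool.Agent.H99.Cycles.Hexagon

open Set

theorem mem_drawing (p : ℝ × ℝ) : p ∈ board.drawing ↔ ∃ i, S i p := by
  constructor
  · rintro (⟨v, rfl⟩ | ⟨u, v, h, hp⟩)
    · have key : ∀ v : Fin 7, ∃ i, S i (pos v) := ?_
      exact key v
      intro v
      fin_cases v
      · exact ⟨0, by norm_num [S, pos]⟩
      · exact ⟨0, by norm_num [S, pos]⟩
      · exact ⟨1, by norm_num [S, pos]⟩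
      · exact ⟨2, by norm_num [S, pos]⟩
      · exact ⟨4, by norm_num [S, pos]⟩
      · exact ⟨5, by norm_num [S, pos]⟩
      · exact ⟨7, by norm_num [S, pos]⟩
    · obtain ⟨i, -, hS⟩ := seg_of_adj h
      exact ⟨i, (hS p).1 hp⟩
  · rintro ⟨i, hi⟩
    exact Or.inr ⟨eu i, ev i, ⟨i, Or.inl ⟨rfl, rfl⟩⟩, (seg_iff i p).2 hi⟩

/-- the three open cells -/
def P : Fin 3 → Set (ℝ × ℝ)
  | 0 => {p | 0 < p.1 ∧ p.1 < 1 ∧ 0 < p.2 ∧ p.2 < 1}
  | 1 => {p | -1 < p.1 ∧ p.1 < 0 ∧ p.1 < p.2 ∧ p.2 < p.1 + 1}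
  | 2 => {p | -1 < p.2 ∧ p.2 < 0 ∧ p.2 < p.1 ∧ p.1 < p.2 + 1}

/-- their closures -/
def Q : Fin 3 → Set (ℝ × ℝ)
  | 0 => {p | 0 ≤ p.1 ∧ p.1 ≤ 1 ∧ 0 ≤ p.2 ∧ p.2 ≤ 1}
  | 1 => {p | -1 ≤ p.1 ∧ p.1 ≤ 0 ∧ p.1 ≤ p.2 ∧ p.2 ≤ p.1 + 1}
  | 2 => {p | -1 ≤ p.2 ∧ p.2 ≤ 0 ∧ p.2 ≤ p.1 ∧ p.1 ≤ p.2 + 1}

/-- their centres -/
noncomputable def z : Fin 3 → ℝ × ℝ
  | 0 => (1 / 2, 1 / 2)
  | 1 => (-1 / 2, 0)
  | 2 => (0, -1 / 2)

theorem P_open (c : Fin 3) : IsOpen (P c) := by
  fin_cases c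
  · change IsOpen ({p : ℝ × ℝ | 0 < p.1} ∩ ({p | p.1 < 1} ∩ ({p | 0 < p.2} ∩ {p | p.2 < 1})))
    exact (isOpen_lt (by fun_prop) (by fun_prop)).inter ((isOpen_lt (by fun_prop)
      (by fun_prop)).inter ((isOpen_lt (by fun_prop) (by fun_prop)).inter
        (isOpen_lt (by fun_prop) (by fun_prop))))
  · change IsOpen ({p : ℝ × ℝ | -1 < p.1} ∩ ({p | p.1 < 0} ∩ ({p | p.1 < p.2} ∩
      {p | p.2 < p.1 + 1})))
    exact (isOpen_lt (by fun_prop) (by fun_prop)).inter ((isOpen_lt (by fun_prop)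
      (by fun_prop)).inter ((isOpen_lt (by fun_prop) (by fun_prop)).inter
        (isOpen_lt (by fun_prop) (by fun_prop))))
  · change IsOpen ({p : ℝ × ℝ | -1 < p.2} ∩ ({p | p.2 < 0} ∩ ({p | p.2 < p.1} ∩
      {p | p.1 < p.2 + 1})))
    exact (isOpen_lt (by fun_prop) (by fun_prop)).inter ((isOpen_lt (by fun_prop)
      (by fun_prop)).inter ((isOpen_lt (by fun_prop) (by fun_prop)).inter
        (isOpen_lt (by fun_prop) (by fun_prop))))

theorem Q_closed (c : Fin 3) : IsClosed (Q c) := by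
  fin_cases c
  · change IsClosed ({p : ℝ × ℝ | 0 ≤ p.1} ∩ ({p | p.1 ≤ 1} ∩ ({p | 0 ≤ p.2} ∩ {p | p.2 ≤ 1})))
    exact (isClosed_le (by fun_prop) (by fun_prop)).inter ((isClosed_le (by fun_prop)
      (by fun_prop)).inter ((isClosed_le (by fun_prop) (by fun_prop)).inter
        (isClosed_le (by fun_prop) (by fun_prop))))
  · change IsClosed ({p : ℝ × ℝ | -1 ≤ p.1} ∩ ({p | p.1 ≤ 0} ∩ ({p | p.1 ≤ p.2} ∩
      {p | p.2 ≤ p.1 + 1})))
    exact (isClosed_le (by fun_prop) (by fun_prop)).inter ((isClosed_le (by fun_prop)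
      (by fun_prop)).inter ((isClosed_le (by fun_prop) (by fun_prop)).inter
        (isClosed_le (by fun_prop) (by fun_prop))))
  · change IsClosed ({p : ℝ × ℝ | -1 ≤ p.2} ∩ ({p | p.2 ≤ 0} ∩ ({p | p.2 ≤ p.1} ∩
      {p | p.1 ≤ p.2 + 1})))
    exact (isClosed_le (by fun_prop) (by fun_prop)).inter ((isClosed_le (by fun_prop)
      (by fun_prop)).inter ((isClosed_le (by fun_prop) (by fun_prop)).inter
        (isClosed_le (by fun_prop) (by fun_prop))))

theorem lin_lt {a b c x y : ℝ} (ha : 0 ≤ a) (hb : 0 ≤ b) (hab : a + b = 1) (hx : c < x)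
    (hy : c < y) : c < a * x + b * y := (convex_Ioi c) hx hy ha hb hab

theorem P_convex (c : Fin 3) : Convex ℝ (P c) := by
  rintro ⟨x, y⟩ hp ⟨x', y'⟩ hq a b ha hb hab
  fin_cases c <;> simp only [P, Set.mem_ofPred_eq] at hp hq ⊢ <;>
    obtain ⟨h1, h2, h3, h4⟩ := hp <;> obtain ⟨h5, h6, h7, h8⟩ := hq <;>
    simp only [Prod.smul_mk, smul_eq_mul, Prod.mk_add_mk]
  · have e1 := lin_lt ha hb hab h1 h5
    have e2 := lin_lt ha hb hab (neg_lt_neg h2) (neg_lt_neg h6)
    have e3 := lin_lt ha hb hab h3 h7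
    have e4 := lin_lt ha hb hab (neg_lt_neg h4) (neg_lt_neg h8)
    exact ⟨by linarith, by linarith, by linarith, by linarith⟩
  · have e1 := lin_lt ha hb hab h1 h5
    have e2 := lin_lt ha hb hab (neg_lt_neg h2) (neg_lt_neg h6)
    have e3 := lin_lt ha hb hab (sub_pos.2 h3) (sub_pos.2 h7)
    have e4 := lin_lt ha hb hab (sub_pos.2 h4) (sub_pos.2 h8)
    exact ⟨by linarith, by linarith, by linarith, by linarith⟩
  · have e1 := lin_lt ha hb hab h1 h5
    have e2 := lin_lt ha hb hab (neg_lt_neg h2) (neg_lt_neg h6)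
    have e3 := lin_lt ha hb hab (sub_pos.2 h3) (sub_pos.2 h7)
    have e4 := lin_lt ha hb hab (sub_pos.2 h4) (sub_pos.2 h8)
    exact ⟨by linarith, by linarith, by linarith, by linarith⟩

theorem z_mem (c : Fin 3) : z c ∈ P c := by
  fin_cases c <;> norm_num [z, P]

/-- the open cells avoid the drawing -/
theorem P_off (c : Fin 3) (i : Fin 9) (p : ℝ × ℝ) (hp : p ∈ P c) (hS : S i p) : False := by
  obtain ⟨x, y⟩ := p
  fin_cases c <;> fin_cases i <;> simp only [P, Set.mem_ofPred_eq, S] at hp hS <;>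
    obtain ⟨h1, h2, h3, h4⟩ := hp <;> obtain ⟨h5, h6, h7⟩ := hS <;> linarith

/-- what is in the closed cells but not in the open ones is on the drawing -/
theorem Q_diff (c : Fin 3) (p : ℝ × ℝ) (hq : p ∈ Q c) (hp : p ∉ P c) : ∃ i, S i p := by
  obtain ⟨x, y⟩ := p
  fin_cases c <;> simp only [P, Q, Set.mem_ofPred_eq] at hp hq <;>
    obtain ⟨h1, h2, h3, h4⟩ := hq <;> simp only [not_and_or, not_lt] at hp <;>
    rcases hp with hp | hp | hp | hp
  · exact ⟨3, h3, h4, by simp only; linarith⟩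
  · exact ⟨1, h3, h4, by simp only; linarith⟩
  · exact ⟨0, h1, h2, by simp only; linarith⟩
  · exact ⟨2, h1, h2, by simp only; linarith⟩
  · exact ⟨5, by simp only; linarith, by simp only; linarith, by simp only; linarith⟩
  · exact ⟨3, by simp only; linarith, by simp only; linarith, by simp only; linarith⟩
  · exact ⟨6, by simp only; linarith, by simp only; linarith, by simp only; linarith⟩
  · exact ⟨4, by simp only; linarith, by simp only; linarith, by simp only; linarith⟩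
  · exact ⟨7, by simp only; linarith, by simp only; linarith, by simp only; linarith⟩
  · exact ⟨0, by simp only; linarith, by simp only; linarith, by simp only; linarith⟩
  · exact ⟨6, by simp only; linarith, by simp only; linarith, by simp only; linarith⟩
  · exact ⟨8, by simp only; linarith, by simp only; linarith, by simp only; linarith⟩

theorem P_sub_Q (c : Fin 3) : P c ⊆ Q c := by
  rintro ⟨x, y⟩ hp
  fin_cases c <;> simp only [P, Q, Set.mem_ofPred_eq] at hp ⊢ <;>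
    obtain ⟨h1, h2, h3, h4⟩ := hp <;> exact ⟨h1.le, h2.le, h3.le, h4.le⟩

theorem P_sub_compl (c : Fin 3) : P c ⊆ board.drawingᶜ := by
  intro p hp h
  obtain ⟨i, hi⟩ := (mem_drawing p).1 h
  exact P_off c i p hp hi

theorem component (c : Fin 3) (p : ℝ × ℝ) (hp : p ∈ P c) :
    connectedComponentIn board.drawingᶜ p = P c := by
  apply Subset.antisymm
  · have h1 : IsPreconnected (connectedComponentIn board.drawingᶜ p) :=
      isPreconnected_connectedComponentIn
    have hpd : p ∈ board.drawingᶜ := P_sub_compl c hp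
    refine IsPreconnected.subset_left_of_subset_union (P_open c) (Q_closed c).isOpen_compl ?_ ?_ ?_
      h1
    · rw [Set.disjoint_left]
      intro q hq hq'
      exact hq' (P_sub_Q c hq)
    · intro q hq
      have hqd : q ∈ board.drawingᶜ := connectedComponentIn_subset _ _ hq
      by_contra hcon
      rw [Set.mem_union, not_or, Set.mem_compl_iff, not_not] at hcon
      exact hqd ((mem_drawing q).2 (Q_diff c q hcon.2 hcon.1))
    · exact ⟨p, mem_connectedComponentIn hpd, hp⟩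
  · exact (P_convex c).isPreconnected.subset_connectedComponentIn hp (P_sub_compl c)

theorem Q_bound (c : Fin 3) (p : ℝ × ℝ) (hp : p ∈ Q c) : |p.1| ≤ 1 ∧ |p.2| ≤ 1 := by
  obtain ⟨x, y⟩ := p
  fin_cases c <;> simp only [Q, Set.mem_ofPred_eq] at hp <;>
    obtain ⟨h1, h2, h3, h4⟩ := hp <;> simp only [abs_le] <;>
    exact ⟨⟨by linarith, by linarith⟩, ⟨by linarith, by linarith⟩⟩

theorem P_bounded (c : Fin 3) : Bornology.IsBounded (P c) := by
  refine (Metric.isBounded_closedBall (x := (0 : ℝ × ℝ)) (r := 1)).subset ?_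
  intro p hp
  have := Q_bound c p (P_sub_Q c hp)
  rw [mem_closedBall_zero_iff, Prod.norm_def, Real.norm_eq_abs, Real.norm_eq_abs]
  exact max_le this.1 this.2

/-- the closed hexagon -/
def K : Set (ℝ × ℝ) := {p | |p.1| ≤ 1 ∧ |p.2| ≤ 1 ∧ |p.1 - p.2| ≤ 1}

theorem drawing_sub_K (p : ℝ × ℝ) (hp : p ∈ board.drawing) : p ∈ K := by
  obtain ⟨i, hi⟩ := (mem_drawing p).1 hp
  obtain ⟨x, y⟩ := p
  fin_cases i <;> simp only [S] at hi <;> obtain ⟨h1, h2, h3⟩ := hi <;>
    simp only [K, Set.mem_ofPred_eq, abs_le] <;>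
    exact ⟨⟨by linarith, by linarith⟩, ⟨by linarith, by linarith⟩, ⟨by linarith, by linarith⟩⟩

theorem K_sub (p : ℝ × ℝ) (hp : p ∈ K) : ∃ c, p ∈ Q c := by
  obtain ⟨x, y⟩ := p
  simp only [K, Set.mem_ofPred_eq, abs_le] at hp
  obtain ⟨⟨h1, h2⟩, ⟨h3, h4⟩, ⟨h5, h6⟩⟩ := hp
  rcases le_total 0 x with hx | hx
  · rcases le_total 0 y with hy | hy
    · exact ⟨0, hx, h2, hy, h4⟩
    · exact ⟨2, h3, hy, by simp only; linarith, by simp only; linarith⟩
  · rcases le_total x y with hxy | hxy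
    · exact ⟨1, h1, hx, hxy, by simp only; linarith⟩
    · exact ⟨2, h3, by simp only; linarith, hxy, by simp only; linarith⟩

theorem isCell_iff (U : Set (ℝ × ℝ)) : board.IsCell U ↔ ∃ c, U = P c := by
  constructor
  · rintro ⟨hb, p, hp, rfl⟩
    by_cases hK : p ∈ K
    · obtain ⟨c, hc⟩ := K_sub p hK
      by_cases hPc : p ∈ P c
      · exact ⟨c, component c p hPc⟩
      · exact absurd ((mem_drawing p).2 (Q_diff c p hc hPc)) hp
    · exfalso
      have hray : (fun t : ℝ => t • p) '' Ici 1 ⊆ connectedComponentIn board.drawingᶜ p := by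
        apply IsPreconnected.subset_connectedComponentIn
        · exact (isPreconnected_Ici).image _ (by fun_prop)
        · exact ⟨1, by simp, by simp⟩
        · rintro q ⟨t, ht, rfl⟩ hq
          apply hK
          have := drawing_sub_K _ hq
          simp only [K, Set.mem_ofPred_eq, Prod.smul_fst, Prod.smul_snd, smul_eq_mul, ← mul_sub,
            abs_mul] at this ⊢
          have ht1 : 1 ≤ |t| := le_trans ht (le_abs_self t)
          refine ⟨?_, ?_, ?_⟩
          · nlinarith [abs_nonneg p.1, this.1]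
          · nlinarith [abs_nonneg p.2, this.2.1]
          · nlinarith [abs_nonneg (p.1 - p.2), this.2.2]
      obtain ⟨C, hC⟩ := (hb.subset hray).exists_norm_le
      have hp0 : 0 < ‖p‖ := by
        rw [norm_pos_iff]
        rintro rfl
        exact hK (by simp [K])
      have h1 := hC ((max 1 ((C + 1) / ‖p‖)) • p)
        ⟨max 1 ((C + 1) / ‖p‖), Set.mem_Ici.2 (le_max_left _ _), rfl⟩
      rw [norm_smul, Real.norm_eq_abs, abs_of_nonneg (le_trans zero_le_one (le_max_left _ _))] at h1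
      have h2 : (C + 1) / ‖p‖ * ‖p‖ ≤ max 1 ((C + 1) / ‖p‖) * ‖p‖ :=
        mul_le_mul_of_nonneg_right (le_max_right _ _) hp0.le
      rw [div_mul_cancel₀ _ hp0.ne'] at h2
      linarith
  · rintro ⟨c, rfl⟩
    exact ⟨P_bounded c, z c, P_sub_compl c (z_mem c), (component c _ (z_mem c)).symm⟩

end Pool.Agent.H99.Cycles.Hexagon
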