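import Mathlib

/-!
# The Game of Cycles: boards, cells, legal moves, winning positions

Definitions for problem MP_b0ae03_co.
-/

set_option autoImplicit false

namespace Pool.Agent.H99.Cycles

open Set

/-- A game board: a finite simple graph together with a drawing in the plane in which every edge
is a line segment and the edges meet only in common end points. -/
structure Board where
  /-- the vertices -/
  V : Type
  /-- there are finitely many vertices -/
  finite : Finite V
  /-- the graph -/
  G : SimpleGraph V
  /-- the point of the plane at which a vertex is drawn -/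
  pos : V → ℝ × ℝ
  /-- different vertices are drawn at different points -/
  pos_injective : Function.Injective pos
  /-- a vertex lies on an edge only as one of its end points -/
  vertex_off_edge : ∀ u v w, G.Adj u v → pos w ∈ segment ℝ (pos u) (pos v) → w = u ∨ w = v
  /-- two different edges meet only in common end points -/
  edges_disjoint : ∀ u v x y, G.Adj u v → G.Adj x y → s(u, v) ≠ s(x, y) →
    ∀ p ∈ segment ℝ (pos u) (pos v) ∩ segment ℝ (pos x) (pos y),
      ∃ w, (w = u ∨ w = v) ∧ (w = x ∨ w = y) ∧ p = pos w

namespace Board

variable (B : Board)

/-- The drawing: the set of all points of the plane that are the point of a vertex or lie on an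
edge. -/
def drawing : Set (ℝ × ℝ) :=
  range B.pos ∪ {p | ∃ u v, B.G.Adj u v ∧ p ∈ segment ℝ (B.pos u) (B.pos v)}

/-- The cells: the bounded connected components of the complement of the drawing. -/
def IsCell (U : Set (ℝ × ℝ)) : Prop :=
  Bornology.IsBounded U ∧ ∃ p ∈ B.drawingᶜ, U = connectedComponentIn B.drawingᶜ p

/-- The edge `uv` is a boundary edge of the region `U`. -/
def OnBoundary (U : Set (ℝ × ℝ)) (u v : B.V) : Prop :=
  B.G.Adj u v ∧ segment ℝ (B.pos u) (B.pos v) ⊆ frontier U

/-- The region `U` lies to the left of the arrow from `u` to `v`: all points that are close to the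
midpoint of the arrow and lie exactly to the left of it are in `U`. -/
def Left (U : Set (ℝ × ℝ)) (u v : B.V) : Prop :=
  ∃ ε > 0, ∀ t, 0 < t → t < ε →
    ((((B.pos u).1 + (B.pos v).1) / 2 - t * ((B.pos v).2 - (B.pos u).2),
      ((B.pos u).2 + (B.pos v).2) / 2 + t * ((B.pos v).1 - (B.pos u).1)) : ℝ × ℝ) ∈ U

/-- A position of the game is a set `A` of arrows: `(u, v) ∈ A` when the edge `uv` is marked with
an arrow from `u` to `v`. The vertex `v` is a sink when all its edges are marked and point
to it. -/
def IsSink (A : Set (B.V × B.V)) (v : B.V) : Prop := ∀ u, B.G.Adj u v → (u, v) ∈ A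

/-- The vertex `u` is a source when all its edges are marked and point away from it. -/
def IsSource (A : Set (B.V × B.V)) (u : B.V) : Prop := ∀ v, B.G.Adj u v → (u, v) ∈ A

/-- In position `A` it is legal to mark the edge `uv` with an arrow from `u` to `v`: the edge is
unmarked, and the arrow makes neither its head a sink nor its tail a source. -/
def Legal (A : Set (B.V × B.V)) (u v : B.V) : Prop :=
  B.G.Adj u v ∧ (u, v) ∉ A ∧ (v, u) ∉ A ∧
    ¬ B.IsSink (insert (u, v) A) v ∧ ¬ B.IsSource (insert (u, v) A) u

/-- In position `A` all boundary edges of the region `U` are marked with an arrow that has `U` on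
its left and not on its right: they are all oriented counterclockwise around `U`. -/
def Counterclockwise (A : Set (B.V × B.V)) (U : Set (ℝ × ℝ)) : Prop :=
  ∀ u v, B.OnBoundary U u v →
    ((u, v) ∈ A ∧ B.Left U u v ∧ ¬ B.Left U v u) ∨ ((v, u) ∈ A ∧ B.Left U v u ∧ ¬ B.Left U u v)

/-- In position `A` all boundary edges of the region `U` are marked with an arrow that has `U` on
its right and not on its left: they are all oriented clockwise around `U`. -/
def Clockwise (A : Set (B.V × B.V)) (U : Set (ℝ × ℝ)) : Prop :=
  ∀ u v, B.OnBoundary U u v →
    ((u, v) ∈ A ∧ B.Left U v u ∧ ¬ B.Left U u v) ∨ ((v, u) ∈ A ∧ B.Left U u v ∧ ¬ B.Left U v u)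

/-- In position `A` there is a cycle cell. -/
def HasCycleCell (A : Set (B.V × B.V)) : Prop :=
  ∃ U, B.IsCell U ∧ (B.Counterclockwise A U ∨ B.Clockwise A U)

end Board

mutual

/-- The player who is to move in position `A` (in which no cycle cell has been created) has a
winning strategy. -/
inductive MoverWins (B : Board) : Set (B.V × B.V) → Prop
  /-- he can create a cycle cell -/
  | cycle {A : Set (B.V × B.V)} {u v : B.V} (h : B.Legal A u v)
      (hc : B.HasCycleCell (insert (u, v) A)) : MoverWins B A
  /-- he can move to a position in which his opponent, who is to move there, loses -/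
  | step {A : Set (B.V × B.V)} {u v : B.V} (h : B.Legal A u v)
      (hw : MoverLoses B (insert (u, v) A)) : MoverWins B A

/-- The player who is not to move in position `A` (in which no cycle cell has been created) has a
winning strategy: no legal move of his opponent creates a cycle cell, and after each of them
he wins. In particular he wins when his opponent has no legal move, so that he himself has made
the last one. -/
inductive MoverLoses (B : Board) : Set (B.V × B.V) → Prop
  | all {A : Set (B.V × B.V)}
      (hc : ∀ u v, B.Legal A u v → ¬ B.HasCycleCell (insert (u, v) A))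
      (hw : ∀ u v, B.Legal A u v → MoverWins B (insert (u, v) A)) : MoverLoses B A

end

/-- Player 1, who moves first, has a winning strategy. -/
def Board.PlayerOneWins (B : Board) : Prop := MoverWins B ∅

/-- Player 2 has a winning strategy. -/
def Board.PlayerTwoWins (B : Board) : Prop := MoverLoses B ∅

end Pool.Agent.H99.Cycles
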