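import Pool.Agent.H99.CyclesTable

/-!
# Player 2 wins on the hexagon board: the proof
-/

set_option autoImplicit false

namespace Pool.Agent.H99.Cycles

/-- In no position do both players have a winning strategy. -/
theorem not_both (B : Board) {A : Set (B.V × B.V)} (hl : MoverLoses B A) : ¬ MoverWins B A := by
  refine MoverLoses.rec (B := B) (motive_1 := fun A _ => ¬ MoverLoses B A)
    (motive_2 := fun A _ => ¬ MoverWins B A) ?_ ?_ ?_ hl
  · intro A u v h hc hl
    cases hl with
    | all hc' hw' => exact hc' _ _ h hc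
  · intro A u v h _ ih hl
    cases hl with
    | all hc' hw' => exact ih (hw' _ _ h)
  · intro A hc _ ih hw
    cases hw with
    | cycle h hc' => exact hc _ _ h hc'
    | step h hw' => exact ih _ _ h hw'

namespace Hexagon

open Set

/-- the position with code `s` -/
def Pset (s : ℕ) : Set (Fin 7 × Fin 7) := {a | ∃ j : Fin 18, a = arr j ∧ s.testBit j = true}

theorem arr_inj : ∀ j k : Fin 18, arr j = arr k → j = k := by decide

theorem mem_Pset (s : ℕ) (j : Fin 18) : arr j ∈ Pset s ↔ s.testBit j = true := by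
  constructor
  · rintro ⟨k, hk, h⟩
    rwa [arr_inj j k hk]
  · intro h
    exact ⟨j, rfl, h⟩

theorem arr_sw : ∀ j : Fin 18, arr (sw j) = ((arr j).2, (arr j).1) := by decide

theorem adj_iff : ∀ u v : Fin 7, G.Adj u v ↔ ∃ j, arr j = (u, v) := by decide

theorem testBit_or_shift (s : ℕ) (j k : Fin 18) :
    (s ||| 1 <<< j.val).testBit k = true ↔ (s.testBit k = true ∨ j = k) := by
  rw [Nat.testBit_or, Bool.or_eq_true, Nat.one_shiftLeft, Nat.testBit_two_pow]
  simp [Fin.ext_iff]

theorem insert_Pset (s : ℕ) (j : Fin 18) : insert (arr j) (Pset s) = Pset (s ||| 1 <<< j.val) := by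
  ext a
  rw [Set.mem_insert_iff]
  constructor
  · rintro (rfl | ⟨k, rfl, hk⟩)
    · exact ⟨j, rfl, (testBit_or_shift s j j).2 (Or.inr rfl)⟩
    · exact ⟨k, rfl, (testBit_or_shift s j k).2 (Or.inl hk)⟩
  · rintro ⟨k, rfl, hk⟩
    rcases (testBit_or_shift s j k).1 hk with h | rfl
    · exact Or.inr ⟨k, rfl, h⟩
    · exact Or.inl rfl

theorem mask_iff (t m : ℕ) (hm : m < 2 ^ 18) :
    Nat.beq (t &&& m) m = true ↔ ∀ j : Fin 18, m.testBit j = true → t.testBit j = true := by
  rw [Nat.beq_eq]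
  constructor
  · intro h j hj
    rw [← h, Nat.testBit_and, Bool.and_eq_true] at hj
    exact hj.1
  · intro h
    apply Nat.eq_of_testBit_eq
    intro i
    rw [Nat.testBit_and]
    by_cases hi : i < 18
    · by_cases hb : m.testBit i = true
      · rw [h ⟨i, hi⟩ hb, hb]
        rfl
      · simp only [Bool.not_eq_true] at hb
        rw [hb, Bool.and_false]
    · have : m.testBit i = false := Nat.testBit_lt_two_pow
        (lt_of_lt_of_le hm (Nat.pow_le_pow_right (by norm_num) (not_lt.1 hi)))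
      rw [this, Bool.and_false]

theorem inm_lt : ∀ v, inm v < 2 ^ 18 := by decide
theorem outm_lt : ∀ v, outm v < 2 ^ 18 := by decide
theorem mccw_lt : ∀ v, mccw v < 2 ^ 18 := by decide
theorem mcw_lt : ∀ v, mcw v < 2 ^ 18 := by decide
theorem inm_bit : ∀ v, ∀ j : Fin 18, (inm v).testBit j = true ↔ (arr j).2 = v := by decide
theorem outm_bit : ∀ v, ∀ j : Fin 18, (outm v).testBit j = true ↔ (arr j).1 = v := by decide
theorem mccw_bit : ∀ c, ∀ j : Fin 18, (mccw c).testBit j = true ↔
    ∃ i, (side c i = 1 ∧ arr j = (eu i, ev i)) ∨ (side c i = 2 ∧ arr j = (ev i, eu i)) := by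
  decide +kernel
theorem mcw_bit : ∀ c, ∀ j : Fin 18, (mcw c).testBit j = true ↔
    ∃ i, (side c i = 1 ∧ arr j = (ev i, eu i)) ∨ (side c i = 2 ∧ arr j = (eu i, ev i)) := by
  decide +kernel
theorem arr_fwd : ∀ i, ∃ j, arr j = (eu i, ev i) := by decide
theorem arr_bwd : ∀ i, ∃ j, arr j = (ev i, eu i) := by decide

/-- sinks of the hexagon board -/
def SinkF (A : Set (Fin 7 × Fin 7)) (v : Fin 7) : Prop := ∀ u : Fin 7, G.Adj u v → (u, v) ∈ A

/-- sources of the hexagon board -/
def SourceF (A : Set (Fin 7 × Fin 7)) (u : Fin 7) : Prop := ∀ v : Fin 7, G.Adj u v → (u, v) ∈ A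

/-- legal moves of the hexagon board -/
def LegalF (A : Set (Fin 7 × Fin 7)) (u v : Fin 7) : Prop :=
  G.Adj u v ∧ (u, v) ∉ A ∧ (v, u) ∉ A ∧ ¬ SinkF (insert (u, v) A) v ∧
    ¬ SourceF (insert (u, v) A) u

/-- cycle cells of the hexagon board -/
def CycF (A : Set (Fin 7 × Fin 7)) : Prop := board.HasCycleCell A

/-- won positions of the hexagon board -/
def WinsF (A : Set (Fin 7 × Fin 7)) : Prop := MoverWins board A

/-- lost positions of the hexagon board -/
def LosesF (A : Set (Fin 7 × Fin 7)) : Prop := MoverLoses board A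

theorem losesF_intro (A : Set (Fin 7 × Fin 7))
    (hc : ∀ u v : Fin 7, LegalF A u v → ¬ CycF (insert (u, v) A))
    (hw : ∀ u v : Fin 7, LegalF A u v → WinsF (insert (u, v) A)) : LosesF A :=
  MoverLoses.all hc hw

theorem winsF_cycle (A : Set (Fin 7 × Fin 7)) (u v : Fin 7) (h : LegalF A u v)
    (hc : CycF (insert (u, v) A)) : WinsF A := MoverWins.cycle (B := board) h hc

theorem winsF_step (A : Set (Fin 7 × Fin 7)) (u v : Fin 7) (h : LegalF A u v)
    (hc : LosesF (insert (u, v) A)) : WinsF A := MoverWins.step (B := board) h hc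

theorem sink_iff (t : ℕ) (v : Fin 7) :
    Nat.beq (t &&& inm v) (inm v) = true ↔ SinkF (Pset t) v := by
  rw [mask_iff _ _ (inm_lt v)]
  constructor
  · intro h u hu
    obtain ⟨j, hj⟩ := (adj_iff u v).1 hu
    have := h j ((inm_bit v j).2 (by rw [hj]))
    rw [← hj]
    exact (mem_Pset t j).2 this
  · intro h j hj
    have hj2 := (inm_bit v j).1 hj
    rw [← mem_Pset]
    have := h (arr j).1 ((adj_iff _ _).2 ⟨j, by rw [← hj2]⟩)
    rw [← hj2] at this
    exact this

theorem source_iff (t : ℕ) (u : Fin 7) :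
    Nat.beq (t &&& outm u) (outm u) = true ↔ SourceF (Pset t) u := by
  rw [mask_iff _ _ (outm_lt u)]
  constructor
  · intro h v hv
    obtain ⟨j, hj⟩ := (adj_iff u v).1 hv
    have := h j ((outm_bit u j).2 (by rw [hj]))
    rw [← hj]
    exact (mem_Pset t j).2 this
  · intro h j hj
    have hj2 := (outm_bit u j).1 hj
    rw [← mem_Pset]
    have := h (arr j).2 ((adj_iff _ _).2 ⟨j, by rw [← hj2]⟩)
    rw [← hj2] at this
    exact this

theorem legal_iff (s : ℕ) (j : Fin 18) :
    legalB s j = true ↔ LegalF (Pset s) (arr j).1 (arr j).2 := by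
  have h1 : insert ((arr j).1, (arr j).2) (Pset s) = Pset (s ||| 1 <<< j.val) := insert_Pset s j
  have h2 : ((arr j).2, (arr j).1) = arr (sw j) := (arr_sw j).symm
  have h4 : ((arr j).1, (arr j).2) = arr j := rfl
  unfold LegalF legalB
  rw [h1, h2, h4, mem_Pset, mem_Pset, ← sink_iff, ← source_iff]
  have h3 : G.Adj (arr j).1 (arr j).2 := (adj_iff _ _).2 ⟨j, rfl⟩
  simp only [h3, true_and, Bool.and_eq_true, Bool.not_eq_true', Bool.not_eq_true, and_assoc]

theorem ccw_iff (t : ℕ) (c : Fin 3) :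
    Nat.beq (t &&& mccw c) (mccw c) = true ↔ CCW (Pset t) c := by
  rw [mask_iff _ _ (mccw_lt c)]
  constructor
  · intro h i
    constructor
    · intro h1
      obtain ⟨j, hj⟩ := arr_fwd i
      rw [← hj, mem_Pset]
      exact h j ((mccw_bit c j).2 ⟨i, Or.inl ⟨h1, hj⟩⟩)
    · intro h1
      obtain ⟨j, hj⟩ := arr_bwd i
      rw [← hj, mem_Pset]
      exact h j ((mccw_bit c j).2 ⟨i, Or.inr ⟨h1, hj⟩⟩)
  · intro h j hj
    obtain ⟨i, ⟨h1, h2⟩ | ⟨h1, h2⟩⟩ := (mccw_bit c j).1 hj
    · rw [← mem_Pset, h2]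
      exact (h i).1 h1
    · rw [← mem_Pset, h2]
      exact (h i).2 h1

theorem cw_iff (t : ℕ) (c : Fin 3) :
    Nat.beq (t &&& mcw c) (mcw c) = true ↔ CW (Pset t) c := by
  rw [mask_iff _ _ (mcw_lt c)]
  constructor
  · intro h i
    constructor
    · intro h1
      obtain ⟨j, hj⟩ := arr_bwd i
      rw [← hj, mem_Pset]
      exact h j ((mcw_bit c j).2 ⟨i, Or.inl ⟨h1, hj⟩⟩)
    · intro h1
      obtain ⟨j, hj⟩ := arr_fwd i
      rw [← hj, mem_Pset]
      exact h j ((mcw_bit c j).2 ⟨i, Or.inr ⟨h1, hj⟩⟩)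
  · intro h j hj
    obtain ⟨i, ⟨h1, h2⟩ | ⟨h1, h2⟩⟩ := (mcw_bit c j).1 hj
    · rw [← mem_Pset, h2]
      exact (h i).1 h1
    · rw [← mem_Pset, h2]
      exact (h i).2 h1

theorem cyc_iff (t : ℕ) : cycB t = true ↔ CycF (Pset t) := by
  have h : CycF (Pset t) ↔ ∃ c, CCW (Pset t) c ∨ CW (Pset t) c :=
    ⟨of_hasCycleCell _, fun ⟨c, hc⟩ => hasCycleCell_of _ c hc⟩
  rw [h, Fin.exists_fin_succ, Fin.exists_fin_succ, Fin.exists_fin_succ]
  simp only [← ccw_iff, ← cw_iff, cycB, Bool.or_eq_true]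
  simp only [Fin.succ_zero_eq_one, Fin.succ_one_eq_two, or_assoc, IsEmpty.exists_iff, or_false]

theorem mem_idx : ∀ j : Fin 18, j ∈ idx := by decide

theorem loses : ∀ n s : ℕ, s < 2 ^ 18 → 2 ^ 18 - s ≤ n → s ∈ T → LosesF (Pset s) := by
  intro n
  induction n with
  | zero =>
    intro s h1 h2
    omega
  | succ n ih =>
    intro s h1 h2 hs
    have hchk : checkS s = true := List.all_eq_true.1 check_T s hs
    have key : ∀ u v : Fin 7, LegalF (Pset s) u v → ∃ j, arr j = (u, v) ∧
        legalB s j = true ∧ (cycB (s ||| 1 <<< j.val) = false ∧ ∃ k,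
          legalB (s ||| 1 <<< j.val) k = true ∧
            (cycB ((s ||| 1 <<< j.val) ||| 1 <<< k.val) = true ∨
              ((s ||| 1 <<< j.val) ||| 1 <<< k.val) ∈ T)) := by
      intro u v huv
      obtain ⟨j, hj⟩ := (adj_iff u v).1 huv.1
      have hl : legalB s j = true := by
        rw [legal_iff, hj]
        exact huv
      refine ⟨j, hj, hl, ?_⟩
      have := List.all_eq_true.1 hchk j (mem_idx j)
      rw [hl, Bool.not_true, Bool.false_or, Bool.and_eq_true, Bool.not_eq_true'] at this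
      refine ⟨this.1, ?_⟩
      obtain ⟨k, -, hk⟩ := List.any_eq_true.1 this.2
      rw [Bool.and_eq_true, Bool.or_eq_true, ← mk_T, testBit_mk] at hk
      exact ⟨k, hk⟩
    refine losesF_intro _ ?_ ?_
    · intro u v huv
      obtain ⟨j, hj, -, hc, -⟩ := key u v huv
      rw [← hj, insert_Pset s j, ← cyc_iff, hc]
      decide
    · intro u v huv
      obtain ⟨j, hj, hlj, hc, k, hk, hfin⟩ := key u v huv
      rw [← hj, insert_Pset s j]
      have hlegal := (legal_iff _ _).1 hk
      have hins : insert ((arr k).1, (arr k).2) (Pset (s ||| 1 <<< j.val)) =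
          Pset ((s ||| 1 <<< j.val) ||| 1 <<< k.val) := insert_Pset _ k
      rcases hfin with hcyc | hT
      · refine winsF_cycle _ _ _ hlegal ?_
        rw [hins, ← cyc_iff]
        exact hcyc
      · refine winsF_step _ _ _ hlegal ?_
        rw [hins]
        have hlt : s < (s ||| 1 <<< j.val) ||| 1 <<< k.val := by
          have e1 : s ≤ s ||| 1 <<< j.val := Nat.left_le_or
          have e2 : s ||| 1 <<< j.val ≤ (s ||| 1 <<< j.val) ||| 1 <<< k.val := Nat.left_le_or
          refine lt_of_le_of_ne (e1.trans e2) ?_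
          intro heq
          have hbit : s.testBit j = true := by
            rw [heq]
            rw [testBit_or_shift, testBit_or_shift]
            exact Or.inl (Or.inr rfl)
          simp [legalB, hbit] at hlj
        exact ih _ (T_lt _ hT) (by omega) hT

theorem Pset_zero : Pset 0 = ∅ := by
  ext a
  simp [Pset]

theorem playerTwoWins : board.PlayerTwoWins := by
  have h := loses (2 ^ 18) 0 (by norm_num) (by norm_num) (by decide)
  rw [Pset_zero] at h
  exact h

theorem not_playerOneWins : ¬ board.PlayerOneWins := not_both board playerTwoWins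

theorem cliqueFree : G.CliqueFree 3 := by
  have h : ∀ a b c : Fin 7, G.Adj a b → G.Adj a c → G.Adj b c → False := by decide
  intro s hs
  obtain ⟨a, b, c, hab, hac, hbc, -⟩ := SimpleGraph.is3Clique_iff.1 hs
  exact h a b c hab hac hbc

theorem edges_odd : Odd G.edgeSet.ncard := by
  have h : G.edgeFinset.card = 9 := by decide +kernel
  rw [← SimpleGraph.coe_edgeFinset, Set.ncard_coe_finset, h]
  decide

theorem two_le (v : Fin 7) : 2 ≤ (G.neighborSet v).ncard := by
  have h : ∀ v, 2 ≤ G.degree v := by decide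
  rw [← SimpleGraph.coe_neighborFinset, Set.ncard_coe_finset]
  exact h v

theorem connected : G.Connected := by
  have h : ∀ v : Fin 7, v ≠ 0 → G.Adj 0 v ∨ ∃ w, G.Adj 0 w ∧ G.Adj w v := by decide
  rw [SimpleGraph.connected_iff_exists_forall_reachable]
  refine ⟨0, fun v => ?_⟩
  by_cases hv : v = 0
  · rw [hv]
  · rcases h v hv with h | ⟨w, h1, h2⟩
    · exact h.reachable
    · exact h1.reachable.trans h2.reachable

end Hexagon

end Pool.Agent.H99.Cycles
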