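import Pool.Agent.H99.CyclesCells

/-!
# Boundary edges and their sides for the hexagon board
-/

set_option autoImplicit false

namespace Pool.Agent.H99.Cycles.Hexagon

open Set

theorem Q_sub_closure (c : Fin 3) : Q c ⊆ closure (P c) := by
  intro q hq
  have hcont : Continuous (fun t : ℝ => q + t • (z c - q)) := by fun_prop
  have hsub : (fun t : ℝ => q + t • (z c - q)) '' Ioo 0 1 ⊆ P c := by
    rintro r ⟨t, ⟨h0, h1⟩, rfl⟩
    obtain ⟨x, y⟩ := q
    fin_cases c <;> simp only [Q, P, z, Set.mem_ofPred_eq] at hq ⊢ <;>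
      obtain ⟨g1, g2, g3, g4⟩ := hq <;>
      simp only [Prod.mk_sub_mk, Prod.smul_mk, smul_eq_mul, Prod.mk_add_mk] <;>
      exact ⟨by nlinarith, by nlinarith, by nlinarith, by nlinarith⟩
  have h := image_closure_subset_closure_image (s := Ioo (0 : ℝ) 1) hcont
  have h0 : (0 : ℝ) ∈ closure (Ioo (0 : ℝ) 1) := by
    rw [closure_Ioo (by norm_num)]
    exact ⟨le_refl _, by norm_num⟩
  have h1 := h ⟨0, h0, rfl⟩
  simp only [zero_smul, add_zero] at h1
  exact closure_mono hsub h1

theorem closure_P (c : Fin 3) : closure (P c) = Q c :=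
  Subset.antisymm (closure_minimal (P_sub_Q c) (Q_closed c)) (Q_sub_closure c)

theorem frontier_P (c : Fin 3) : frontier (P c) = Q c \ P c := by
  rw [frontier, closure_P, (P_open c).interior_eq]

/-- `0`: not a boundary edge; `1`: boundary edge whose reference arrow is counterclockwise;
`2`: boundary edge whose reference arrow is clockwise -/
def side : Fin 3 → Fin 9 → Fin 3
  | 0, 0 => 1
  | 0, 1 => 1
  | 0, 2 => 1
  | 0, 3 => 1
  | 1, 3 => 2
  | 1, 4 => 1
  | 1, 5 => 1
  | 1, 6 => 1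
  | 2, 6 => 2
  | 2, 7 => 1
  | 2, 8 => 1
  | 2, 0 => 2
  | _, _ => 0

/-- the midpoints of the edges -/
noncomputable def mid : Fin 9 → ℝ × ℝ
  | 0 => (1 / 2, 0)
  | 1 => (1, 1 / 2)
  | 2 => (1 / 2, 1)
  | 3 => (0, 1 / 2)
  | 4 => (-1 / 2, 1 / 2)
  | 5 => (-1, -1 / 2)
  | 6 => (-1 / 2, -1 / 2)
  | 7 => (-1 / 2, -1)
  | 8 => (1 / 2, -1 / 2)

theorem mid_S (i : Fin 9) : S i (mid i) := by
  fin_cases i <;> norm_num [S, mid]

theorem not_frontier (c : Fin 3) (i : Fin 9) (h : side c i = 0) : mid i ∉ Q c := by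
  fin_cases c <;> fin_cases i <;> first | (exfalso; revert h; decide) | norm_num [Q, mid]

theorem S_sub_Q (c : Fin 3) (i : Fin 9) (h : side c i ≠ 0) (p : ℝ × ℝ) (hp : S i p) : p ∈ Q c := by
  obtain ⟨x, y⟩ := p
  fin_cases c <;> fin_cases i <;> first | exact absurd rfl h |
    (simp only [Q, S, Set.mem_ofPred_eq] at hp ⊢; obtain ⟨h1, h2, h3⟩ := hp
     exact ⟨by linarith, by linarith, by linarith, by linarith⟩)

theorem frontier_iff (c : Fin 3) (i : Fin 9) :
    (∀ p, S i p → p ∈ frontier (P c)) ↔ side c i ≠ 0 := by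
  rw [frontier_P]
  constructor
  · intro h h0
    exact not_frontier c i h0 (h _ (mid_S i)).1
  · intro h p hp
    exact ⟨S_sub_Q c i h p hp, fun hP => P_off c i p hP hp⟩

theorem left_pos (c : Fin 3) (i : Fin 9) (h : side c i = 1) :
    board.Left (P c) (eu i) (ev i) := by
  refine ⟨1 / 8, by norm_num, fun t h0 h1 => ?_⟩
  change ((((pos (eu i)).1 + (pos (ev i)).1) / 2 - t * ((pos (ev i)).2 - (pos (eu i)).2),
      ((pos (eu i)).2 + (pos (ev i)).2) / 2 + t * ((pos (ev i)).1 - (pos (eu i)).1)) : ℝ × ℝ) ∈ P c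
  fin_cases c <;> fin_cases i <;> first | (exfalso; revert h; decide) |
    (simp only [eu, ev, pos, P, Set.mem_ofPred_eq]
     exact ⟨by linarith, by linarith, by linarith, by linarith⟩)

theorem right_pos (c : Fin 3) (i : Fin 9) (h : side c i = 2) :
    board.Left (P c) (ev i) (eu i) := by
  refine ⟨1 / 8, by norm_num, fun t h0 h1 => ?_⟩
  change ((((pos (ev i)).1 + (pos (eu i)).1) / 2 - t * ((pos (eu i)).2 - (pos (ev i)).2),
      ((pos (ev i)).2 + (pos (eu i)).2) / 2 + t * ((pos (eu i)).1 - (pos (ev i)).1)) : ℝ × ℝ) ∈ P c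
  fin_cases c <;> fin_cases i <;> first | (exfalso; revert h; decide) |
    (simp only [eu, ev, pos, P, Set.mem_ofPred_eq]
     exact ⟨by linarith, by linarith, by linarith, by linarith⟩)

theorem right_neg (c : Fin 3) (i : Fin 9) (h : side c i = 1) :
    ¬ board.Left (P c) (ev i) (eu i) := by
  rintro ⟨ε, hε, hall⟩
  have h2 := hall (ε / 2) (by linarith) (by linarith)
  change ((((pos (ev i)).1 + (pos (eu i)).1) / 2 - ε / 2 * ((pos (eu i)).2 - (pos (ev i)).2),
      ((pos (ev i)).2 + (pos (eu i)).2) / 2 + ε / 2 * ((pos (eu i)).1 - (pos (ev i)).1)) : ℝ × ℝ)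
      ∈ P c at h2
  fin_cases c <;> fin_cases i <;> first | (exfalso; revert h; decide) |
    (simp only [eu, ev, pos, P, Set.mem_ofPred_eq] at h2
     obtain ⟨g1, g2, g3, g4⟩ := h2
     linarith)

theorem left_neg (c : Fin 3) (i : Fin 9) (h : side c i = 2) :
    ¬ board.Left (P c) (eu i) (ev i) := by
  rintro ⟨ε, hε, hall⟩
  have h2 := hall (ε / 2) (by linarith) (by linarith)
  change ((((pos (eu i)).1 + (pos (ev i)).1) / 2 - ε / 2 * ((pos (ev i)).2 - (pos (eu i)).2),
      ((pos (eu i)).2 + (pos (ev i)).2) / 2 + ε / 2 * ((pos (ev i)).1 - (pos (eu i)).1)) : ℝ × ℝ)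
      ∈ P c at h2
  fin_cases c <;> fin_cases i <;> first | (exfalso; revert h; decide) |
    (simp only [eu, ev, pos, P, Set.mem_ofPred_eq] at h2
     obtain ⟨g1, g2, g3, g4⟩ := h2
     linarith)

/-- all boundary edges of the cell `c` are marked counterclockwise -/
def CCW (A : Set (Fin 7 × Fin 7)) (c : Fin 3) : Prop :=
  ∀ i, (side c i = 1 → (eu i, ev i) ∈ A) ∧ (side c i = 2 → (ev i, eu i) ∈ A)

/-- all boundary edges of the cell `c` are marked clockwise -/
def CW (A : Set (Fin 7 × Fin 7)) (c : Fin 3) : Prop :=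
  ∀ i, (side c i = 1 → (ev i, eu i) ∈ A) ∧ (side c i = 2 → (eu i, ev i) ∈ A)

theorem onBoundary_of (c : Fin 3) (i : Fin 9) (h : side c i ≠ 0) :
    board.OnBoundary (P c) (eu i) (ev i) :=
  ⟨⟨i, Or.inl ⟨rfl, rfl⟩⟩, fun p hp => (frontier_iff c i).2 h p ((seg_iff i p).1 hp)⟩

theorem of_hasCycleCell (A : Set (Fin 7 × Fin 7)) (h : board.HasCycleCell A) :
    ∃ c, CCW A c ∨ CW A c := by
  obtain ⟨U, hU, h⟩ := h
  obtain ⟨c, rfl⟩ := (isCell_iff U).1 hU
  refine ⟨c, h.imp (fun h i => ⟨fun h1 => ?_, fun h2 => ?_⟩) (fun h i => ⟨fun h1 => ?_,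
    fun h2 => ?_⟩)⟩
  · have hb := onBoundary_of c i (by rw [h1]; decide)
    rcases h _ _ hb with h | h
    · exact h.1
    · exact absurd h.2.1 (right_neg c i h1)
  · have hb := onBoundary_of c i (by rw [h2]; decide)
    rcases h _ _ hb with h | h
    · exact absurd h.2.1 (left_neg c i h2)
    · exact h.1
  · have hb := onBoundary_of c i (by rw [h1]; decide)
    rcases h _ _ hb with h | h
    · exact absurd h.2.1 (right_neg c i h1)
    · exact h.1
  · have hb := onBoundary_of c i (by rw [h2]; decide)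
    rcases h _ _ hb with h | h
    · exact h.1
    · exact absurd h.2.1 (left_neg c i h2)

theorem side_cases (c : Fin 3) (i : Fin 9) (h : side c i ≠ 0) : side c i = 1 ∨ side c i = 2 := by
  revert h
  revert c i
  decide

theorem hasCycleCell_of (A : Set (Fin 7 × Fin 7)) (c : Fin 3) (h : CCW A c ∨ CW A c) :
    board.HasCycleCell A := by
  refine ⟨P c, (isCell_iff _).2 ⟨c, rfl⟩, h.imp (fun h u v huv => ?_) (fun h u v huv => ?_)⟩
  · obtain ⟨⟨i, hi⟩, hf⟩ := huv
    rcases hi with ⟨hu, hv⟩ | ⟨hu, hv⟩ <;> subst hu <;> subst hv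
    · have h0 : side c i ≠ 0 := (frontier_iff c i).1 fun p hp => hf ((seg_iff i p).2 hp)
      rcases side_cases c i h0 with h1 | h1
      · exact Or.inl ⟨(h i).1 h1, left_pos c i h1, right_neg c i h1⟩
      · exact Or.inr ⟨(h i).2 h1, right_pos c i h1, left_neg c i h1⟩
    · have h0 : side c i ≠ 0 := (frontier_iff c i).1 fun p hp => hf (by
        change p ∈ segment ℝ (pos (ev i)) (pos (eu i))
        rw [segment_symm]
        exact (seg_iff i p).2 hp)
      rcases side_cases c i h0 with h1 | h1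
      · exact Or.inr ⟨(h i).1 h1, left_pos c i h1, right_neg c i h1⟩
      · exact Or.inl ⟨(h i).2 h1, right_pos c i h1, left_neg c i h1⟩
  · obtain ⟨⟨i, hi⟩, hf⟩ := huv
    rcases hi with ⟨hu, hv⟩ | ⟨hu, hv⟩ <;> subst hu <;> subst hv
    · have h0 : side c i ≠ 0 := (frontier_iff c i).1 fun p hp => hf ((seg_iff i p).2 hp)
      rcases side_cases c i h0 with h1 | h1
      · exact Or.inr ⟨(h i).1 h1, left_pos c i h1, right_neg c i h1⟩
      · exact Or.inl ⟨(h i).2 h1, right_pos c i h1, left_neg c i h1⟩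
    · have h0 : side c i ≠ 0 := (frontier_iff c i).1 fun p hp => hf (by
        change p ∈ segment ℝ (pos (ev i)) (pos (eu i))
        rw [segment_symm]
        exact (seg_iff i p).2 hp)
      rcases side_cases c i h0 with h1 | h1
      · exact Or.inl ⟨(h i).1 h1, left_pos c i h1, right_neg c i h1⟩
      · exact Or.inr ⟨(h i).2 h1, right_pos c i h1, left_neg c i h1⟩

end Pool.Agent.H99.Cycles.Hexagon
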